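import Pool.Agent.Mg.F53d700.G1dce60

namespace Pool.Agent.Results.MP_a9d3bd_ag.HighWeight

open Pool.Agent.MP_a9d3bd_h

theorem result (k ι : Type) [Field k] [Finite k] [Finite ι] (S : Set (MvPolynomial ι k)) (e m : ℕ)
    (h : ∑ d ∈ Finset.range (e + 1), (min (2 * 3 ^ d) ((ringChar k + 1) ^ d) + e) ≤ m) :
    ∀ z ∈ Ch S (Fin m) e, Cl Sum.inr z → z ∈ Bd S (Fin m) e :=
  MP_a9d3bd_v.main S e m h

end Pool.Agent.Results.MP_a9d3bd_ag.HighWeight
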