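import Pool.Agent.Mg.F53d700.G732137
import Pool.Agent.Mg.F53d700.Gb7f1e9

namespace Pool.Agent.Results.MP_a9d3bd_ag.OrthoSympQ1

open Pool.Agent.MP_a9d3bd_h Pool.Agent.MP_a9d3bd_z
open Pool.Agent.MP_a9d3bd_o (CIdx cseg)

theorem result (F k : Type) [Field F] [Fintype F] [Field k] [Finite k] [Algebra F k]
    (ε : F) (Λ : Ideal F) (h1 : 1 - ε ∈ Λ) (h2 : ∀ t ∈ Λ, t + ε * t = 0)
    (n m r d : ℕ) (M : Matrix (Fin n) (Fin n) F) (hM : (M + ε • M.transpose).det ≠ 0)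
    (hn : n / 2 = m + 1) (w : Fin r → Fin (m + 1)) (J : Finset (Fin (r + 1) × Fin (m + 1)))
    (S : Set (MvPolynomial (CIdx n J) k)) (hS : ∀ f ∈ S, ∃ e, f.IsHomogeneous e)
    (hV : ∀ z : CIdx n J → AlgebraicClosure k, (∀ f ∈ S, MvPolynomial.aeval z f = 0) ↔
      ∃ (c : AlgebraicClosure k) (v : Fin (r + 1) → Fin (m + 1) → Fin n → AlgebraicClosure k),
        Flags ε Λ M w v ∧ z = c • cseg J v)
    (hsm : Smooth S d) : BP S d :=
  bp_of_q1 (main F k ε Λ h1 h2 n m r d M hM hn w J S hS hV hsm)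

end Pool.Agent.Results.MP_a9d3bd_ag.OrthoSympQ1
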