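import Pool.Agent.Mg.F53d700.Gb3e6ac

namespace Pool.Agent.Results.MP_a9d3bd_ag.SphericalDL

open MvPolynomial Pool.Agent.MP_a9d3bd_q Pool.Agent.MP_a9d3bd_s

theorem result (p : ℕ) [Fact p.Prime] (k : Type) [Field k] [IsAlgClosed k] [Algebra (ZMod p) k]
    [Algebra.IsAlgebraic (ZMod p) k] (n l m e : ℕ) (he : 0 < e)
    (G : Subgroup (Matrix.SpecialLinearGroup (Fin (n + 1)) k))
    (B H : Subgroup G) (P : Fin (l + 1) → Subgroup G) (F : G →* G)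
    (hG : ZClosed (pts (Set.univ : Set G))) (hH : ZClosed (pts (H : Set G)))
    (hP : ∀ i, ZClosed (pts (P i : Set G))) (hGB : ZClosed (coneOf (Set.univ : Set G)))
    (hB : ∀ g : G, g ∈ B ↔ ∀ a, a ≠ 0 → col g a = 0)
    (hBt : ∀ g ∈ B, g.1.1.IsUpperTriangular) (hBP : ∀ i, B ≤ P i)
    (hPl : ∀ i, ∃ u, coneOf (P i : Set G) = Submodule.span k {col (1 : G), u})
    (hHc : (vanishingIdeal k (pts (H : Set G))).IsPrime)
    (hHs : Finite (DoubleCoset.Quotient (H : Set G) B)) (hF : Poly F)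
    (hFB : ∀ g ∈ B, F g ∈ B) (hFH : ∀ g ∈ H, F g ∈ H)
    (hFm : ∀ (g : G) a b, (F^[m] g).1 a b = g.1 a b ^ p ^ e)
    (L : Type) [Field L] [Algebra k L] (j : ℕ) :
    RatEq (eqs L F P) j ⊔ old k (eqs L F P) j ⊔
      dif (eqs L F P) j (tw L l '' {γ | γ ∈ H ∧ F γ = γ}) = ⊤ := by
  obtain ⟨T, h0, h1, h2, h3⟩ := exists_tup (fb_of_closure p k) he hG hH hP
    (by simpa only [coneOf, Set.mem_univ, true_and] using hGB) hB hBt hBP
    (fun i => (hPl i).imp fun u hu v => Set.ext_iff.1 hu v) hHc hHs hF hFB hFH hFm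
  have h := main (H := H) (fb_of_closure p k) T h0 h1 h2 h3 (fun _ h => ⟨h.1, h.2⟩) L j
  refine top_le_iff.1 (h ▸ sup_le_sup_left (Submodule.span_mono ?_) _)
  rintro z ⟨γ, hγ, e, h⟩
  exact ⟨_, ⟨γ, ⟨hγ, e⟩, rfl⟩, h⟩

end Pool.Agent.Results.MP_a9d3bd_ag.SphericalDL
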