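import Pool.Agent.MP_a9d3bd_gx.MainA

namespace Pool.Agent.Results.MP_a9d3bd_ag.ZeroCyclesK1

open Pool.Agent.MP_a9d3bd_h

theorem result (k ι : Type) [Field k] [Finite k] [Fintype ι] [DecidableEq ι]
    (S : Set (MvPolynomial ι k)) (d : ℕ) (h1 : ∀ f ∈ S, ∃ n, f.IsHomogeneous n)
    (h2 : Smooth S d) : ∀ z ∈ Ch S (Fin 1) 1, Cl Sum.inr z → z ∈ Bd S (Fin 1) 1 :=
  MP_a9d3bd_gx.mainA k ι S d h1 h2

end Pool.Agent.Results.MP_a9d3bd_ag.ZeroCyclesK1
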